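import Pool.Agent.H98.EX.BTargets
import Pool.Agent.H99.CE.VIN

/-!
Row BS2 of exa_modules (MP_65efe8_pr): the base for a concave function.
-/

set_option autoImplicit false

open MeasureTheory ProbabilityTheory Filter Topology
open scoped ENNReal
open Pool.Agent.H95 Pool.Agent.H95.Cop
open Pool.Agent.H96.Cop (ex pk measurable_ex ex_dep ex_shift)
open Pool.Agent.H99.CE (NX w0 w1 BX CT TT Cc low_sub_sum vin_ind)
open Pool.Agent.H98.EX

namespace Pool.Agent.H49.EX

/-- one term of the sum -/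
lemma bs_one (hIND : Pool.Agent.H99.CE.T_IND) (ν : Measure ℝ) [IsProbabilityMeasure ν] {J B : ℕ}
    {θ : ℝ} {φ u : ℝ≥0∞ → ℝ≥0∞} {v w : ℝ≥0∞} (hφ : Measurable φ) (hu : Measurable u)
    {V : ℕ → (ℕ → ℝ) → ℝ≥0∞} (hV : ∀ j < J, Measurable (V j))
    (hG : ∀ s, s ≠ ∞ → ∑ j ∈ Finset.range J, ∫⁻ y, φ (s * V j y) ∂(iid ν) ≤
      s ^ θ * (u s * v + w))
    {Y : (ℕ → ℝ) → ℝ≥0∞} (hY : Measurable Y) (hd : DepLt B Y) (hf : ∀ x, Y x ≠ ∞) (s : ℕ) :
    ∑ j ∈ Finset.range J, ∫⁻ x, φ (Y (shift s x) * V j (shift (B + s) x)) ∂(iid ν) ≤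
      (∫⁻ x, Y x ^ θ * u (Y x) ∂(iid ν)) * v + (∫⁻ x, Y x ^ θ ∂(iid ν)) * w := by
  have h1 : ∀ j ∈ Finset.range J,
      ∫⁻ x, φ (Y (shift s x) * V j (shift (B + s) x)) ∂(iid ν) =
        ∫⁻ x, φ (Y x * V j (shift B x)) ∂(iid ν) := by
    intro j hj
    have hm : Measurable fun x : ℕ → ℝ => φ (Y x * V j (shift B x)) :=
      hφ.comp (hY.mul ((hV j (Finset.mem_range.1 hj)).comp (measurable_shift _)))
    have h2 := (measurePreserving_shift (ν := ν) s).lintegral_comp hm
    rw [← h2]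
    apply lintegral_congr
    intro x
    rw [shift_shift]
  rw [Finset.sum_congr rfl h1]
  refine (vin_ind hIND ν hY hd hf hφ hV (fun s => s ^ θ * (u s * v + w)) hG).trans (le_of_eq ?_)
  have hYt : Measurable fun x : ℕ → ℝ => Y x ^ θ := hY.pow_const θ
  have hYu : Measurable fun x : ℕ → ℝ => Y x ^ θ * u (Y x) := hYt.mul (hu.comp hY)
  rw [← lintegral_mul_const v hYu, ← lintegral_mul_const w hYt,
    ← lintegral_add_left (hYu.mul_const v)]
  apply lintegral_congr
  intro x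
  ring

/-- BS2 -/
theorem pf_BS2 (hCCP : Pool.Agent.H99.CE.T_CCP) (hIND : Pool.Agent.H99.CE.T_IND)
    (hVI2 : T_VI2) : T_BS2 := by
  intro ν _ k n0 J N ga gb V φ θ u un Es Eu qq qu v w hB F G hGm hF
  obtain ⟨hmono, hmeas, hsub, -, -, -⟩ := hCCP φ hB.cc
  have h0 : φ 0 = 0 := hB.cc.1
  rcases Nat.eq_zero_or_pos J with hJ | hJ
  · subst hJ
    simp
  have hN : ∀ p r a, Measurable (N p r a) ∧ DepLt ((a + 1) * k) (N p r a) ∧
      ∀ x, N p r a x ≠ ∞ := (hB.ch 0 hJ).mN
  have hV : ∀ j < J, ∀ p a, Measurable (V j p a) := fun j hj => (hB.ch j hj).mV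
  have hvi := hVI2 ν k n0 J N ga gb V φ θ u un Es Eu qq qu v w hB
  -- the two kinds of factors
  let Y1 : ℕ → ℕ → (ℕ → ℝ) → ℝ≥0∞ := fun i D x => N false false i x * ga D
  let Y2 : ℕ → ℕ → (ℕ → ℝ) → ℝ≥0∞ := fun i D x =>
    N false true i x * (gb D * ex ((i + 1) * k) ((i + D) * k) x)
  have hY1 : ∀ i D, 1 ≤ D → Measurable (Y1 i D) ∧ DepLt ((i + D) * k) (Y1 i D) ∧
      ∀ x, Y1 i D x ≠ ∞ := by
    intro i D hD
    obtain ⟨a1, a2, a3⟩ := hN false false i
    refine ⟨a1.mul_const _, ?_, fun x => ENNReal.mul_ne_top (a3 x) (hB.fa D)⟩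
    intro x y hxy
    simp only [Y1]
    rw [(a2.mono (Nat.mul_le_mul_right k (by omega : i + 1 ≤ i + D))) x y hxy]
  have hY2 : ∀ i D, 1 ≤ D → Measurable (Y2 i D) ∧ DepLt ((i + D) * k) (Y2 i D) ∧
      ∀ x, Y2 i D x ≠ ∞ := by
    intro i D hD
    obtain ⟨a1, a2, a3⟩ := hN false true i
    refine ⟨a1.mul ((measurable_ex _ _).const_mul _), ?_, fun x => ENNReal.mul_ne_top (a3 x)
      (ENNReal.mul_ne_top (hB.fb D) ENNReal.ofReal_ne_top)⟩
    intro x y hxy
    simp only [Y2]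
    rw [(a2.mono (Nat.mul_le_mul_right k (by omega : i + 1 ≤ i + D))) x y hxy,
      ex_dep ((i + 1) * k) ((i + D) * k) x y hxy]
  -- pointwise bound
  have hpt : ∀ j < J, ∀ x, φ (F j x) ≤ φ (G j x) + ∑ c ∈ Finset.range n0,
      ∑ i ∈ Finset.range (J * n0 - c), ∑ D ∈ Finset.Icc 1 (J * n0 - 1 - c - i),
        (φ (Y1 i D (shift (c * k) x) * V j false (c + i + D) (shift ((i + D) * k + c * k) x)) +
         φ (Y2 i D (shift (c * k) x) * V j true (c + i + D) (shift ((i + D) * k + c * k) x))) := by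
    intro j hj x
    refine (hmono (hF j hj x)).trans ((hsub _ _).trans (add_le_add le_rfl ?_))
    refine (low_sub_sum h0 hsub _ _).trans (Finset.sum_le_sum fun c _ => ?_)
    refine (low_sub_sum h0 hsub _ _).trans (Finset.sum_le_sum fun i _ => ?_)
    refine (low_sub_sum h0 hsub _ _).trans (Finset.sum_le_sum fun D _ => ?_)
    refine (hsub _ _).trans (le_of_eq ?_)
    have e1 : (c + i + D) * k = (i + D) * k + c * k := by ring
    have e2 : (c + i + 1) * k = (i + 1) * k + c * k := by ring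
    simp only [Y1, Y2]
    rw [e1, e2, ex_shift, ← mul_assoc (N false false i (shift (c * k) x)) (ga D),
      ← mul_assoc (N false true i (shift (c * k) x))
        (gb D * ex ((i + 1) * k + c * k) ((i + D) * k + c * k) x)]
  -- measurability of the terms
  have hm1 : ∀ j < J, ∀ c i D, 1 ≤ D → Measurable fun x : ℕ → ℝ =>
      φ (Y1 i D (shift (c * k) x) * V j false (c + i + D) (shift ((i + D) * k + c * k) x)) :=
    fun j hj c i D hD => hmeas.comp (((hY1 i D hD).1.comp (measurable_shift _)).mul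
      ((hV j hj _ _).comp (measurable_shift _)))
  have hm2 : ∀ j < J, ∀ c i D, 1 ≤ D → Measurable fun x : ℕ → ℝ =>
      φ (Y2 i D (shift (c * k) x) * V j true (c + i + D) (shift ((i + D) * k + c * k) x)) :=
    fun j hj c i D hD => hmeas.comp (((hY2 i D hD).1.comp (measurable_shift _)).mul
      ((hV j hj _ _).comp (measurable_shift _)))
  have hint : ∀ j ∈ Finset.range J, ∫⁻ x, φ (F j x) ∂(iid ν) ≤ ∫⁻ x, φ (G j x) ∂(iid ν) +
      ∑ c ∈ Finset.range n0, ∑ i ∈ Finset.range (J * n0 - c),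
        ∑ D ∈ Finset.Icc 1 (J * n0 - 1 - c - i),
        (∫⁻ x, φ (Y1 i D (shift (c * k) x) *
            V j false (c + i + D) (shift ((i + D) * k + c * k) x)) ∂(iid ν) +
         ∫⁻ x, φ (Y2 i D (shift (c * k) x) *
            V j true (c + i + D) (shift ((i + D) * k + c * k) x)) ∂(iid ν)) := by
    intro j hj
    rw [Finset.mem_range] at hj
    refine (lintegral_mono (hpt j hj)).trans (le_of_eq ?_)
    have hG' : Measurable fun x : ℕ → ℝ => φ (G j x) := hmeas.comp (hGm j)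
    rw [lintegral_add_left hG']
    congr 1
    have hmD : ∀ c i, ∀ D ∈ Finset.Icc 1 (J * n0 - 1 - c - i), Measurable fun x : ℕ → ℝ =>
        (φ (Y1 i D (shift (c * k) x) *
            V j false (c + i + D) (shift ((i + D) * k + c * k) x)) +
         φ (Y2 i D (shift (c * k) x) *
            V j true (c + i + D) (shift ((i + D) * k + c * k) x))) := by
      intro c i D hD
      rw [Finset.mem_Icc] at hD
      exact (hm1 j hj c i D hD.1).add (hm2 j hj c i D hD.1)
    rw [lintegral_finsetSum _ fun c _ => Finset.measurable_fun_sum _ fun i _ =>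
      Finset.measurable_fun_sum _ fun D hD => hmD c i D hD]
    refine Finset.sum_congr rfl fun c _ => ?_
    rw [lintegral_finsetSum _ fun i _ => Finset.measurable_fun_sum _ fun D hD => hmD c i D hD]
    refine Finset.sum_congr rfl fun i _ => ?_
    rw [lintegral_finsetSum _ fun D hD => hmD c i D hD]
    refine Finset.sum_congr rfl fun D hD => ?_
    rw [Finset.mem_Icc] at hD
    rw [lintegral_add_left (hm1 j hj c i D hD.1)]
  refine (Finset.sum_le_sum hint).trans ?_
  rw [Finset.sum_add_distrib]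
  refine add_le_add le_rfl ?_
  -- the sum over the boxes
  let t : ℕ → ℕ → ℝ≥0∞ := fun i D =>
    ((∫⁻ x, Y1 i D x ^ θ * u (Y1 i D x) ∂(iid ν)) * v + (∫⁻ x, Y1 i D x ^ θ ∂(iid ν)) * w) +
    ((∫⁻ x, Y2 i D x ^ θ * u (Y2 i D x) ∂(iid ν)) * v + (∫⁻ x, Y2 i D x ^ θ ∂(iid ν)) * w)
  have hterm : ∀ c i D, 1 ≤ D → c + i + D < J * n0 →
      ∑ j ∈ Finset.range J, (∫⁻ x, φ (Y1 i D (shift (c * k) x) *
            V j false (c + i + D) (shift ((i + D) * k + c * k) x)) ∂(iid ν) +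
         ∫⁻ x, φ (Y2 i D (shift (c * k) x) *
            V j true (c + i + D) (shift ((i + D) * k + c * k) x)) ∂(iid ν)) ≤ t i D := by
    intro c i D hD ha
    rw [Finset.sum_add_distrib]
    obtain ⟨a1, a2, a3⟩ := hY1 i D hD
    obtain ⟨b1, b2, b3⟩ := hY2 i D hD
    exact add_le_add
      (bs_one hIND ν hmeas hB.mu (V := fun j => V j false (c + i + D))
        (fun j hj => hV j hj _ _) (hvi false (c + i + D) ha) a1 a2 a3 (c * k))
      (bs_one hIND ν hmeas hB.mu (V := fun j => V j true (c + i + D))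
        (fun j hj => hV j hj _ _) (hvi true (c + i + D) ha) b1 b2 b3 (c * k))
  have hsumt : ∑ i ∈ Finset.range (J * n0), ∑ D ∈ Finset.Icc 1 (J * n0), t i D ≤
      qu * v + qq * w := by
    have h3 : ∑ i ∈ Finset.range (J * n0), ∑ D ∈ Finset.Icc 1 (J * n0), t i D =
        (∑ i ∈ Finset.range (J * n0), ∑ D ∈ Finset.Icc 1 (J * n0),
          (∫⁻ x, Y1 i D x ^ θ * u (Y1 i D x) ∂(iid ν) +
           ∫⁻ x, Y2 i D x ^ θ * u (Y2 i D x) ∂(iid ν))) * v +
        (∑ i ∈ Finset.range (J * n0), ∑ D ∈ Finset.Icc 1 (J * n0),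
          (∫⁻ x, Y1 i D x ^ θ ∂(iid ν) + ∫⁻ x, Y2 i D x ^ θ ∂(iid ν))) * w := by
      rw [Finset.sum_mul, Finset.sum_mul, ← Finset.sum_add_distrib]
      refine Finset.sum_congr rfl fun i _ => ?_
      rw [Finset.sum_mul, Finset.sum_mul, ← Finset.sum_add_distrib]
      refine Finset.sum_congr rfl fun D _ => ?_
      simp only [t]
      ring
    rw [h3]
    exact add_le_add (mul_le_mul' (hB.hqu false) le_rfl) (mul_le_mul' (hB.hq false) le_rfl)
  rw [Finset.sum_comm]
  have hc : ∀ c ∈ Finset.range n0, ∑ j ∈ Finset.range J, ∑ i ∈ Finset.range (J * n0 - c),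
      ∑ D ∈ Finset.Icc 1 (J * n0 - 1 - c - i),
        (∫⁻ x, φ (Y1 i D (shift (c * k) x) *
            V j false (c + i + D) (shift ((i + D) * k + c * k) x)) ∂(iid ν) +
         ∫⁻ x, φ (Y2 i D (shift (c * k) x) *
            V j true (c + i + D) (shift ((i + D) * k + c * k) x)) ∂(iid ν)) ≤
      qu * v + qq * w := by
    intro c _
    refine le_trans ?_ hsumt
    rw [Finset.sum_comm]
    refine le_trans (Finset.sum_le_sum (g := fun i =>
      ∑ D ∈ Finset.Icc 1 (J * n0 - 1 - c - i), t i D) fun i _ => ?_) ?_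
    · rw [Finset.sum_comm]
      refine Finset.sum_le_sum fun D hD => ?_
      rw [Finset.mem_Icc] at hD
      exact hterm c i D hD.1 (by omega)
    · refine le_trans (Finset.sum_le_sum_of_subset (Finset.range_mono (Nat.sub_le _ _))) ?_
      refine Finset.sum_le_sum fun i _ => ?_
      refine Finset.sum_le_sum_of_subset ?_
      intro D hD
      rw [Finset.mem_Icc] at hD ⊢
      omega
  refine (Finset.sum_le_sum hc).trans (le_of_eq ?_)
  rw [Finset.sum_const, Finset.card_range, nsmul_eq_mul]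

end Pool.Agent.H49.EX
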