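import Pool.Agent.H98.EX.LTargets
import Pool.Agent.H54.CEL.NUC

/-!
Row NUCX of exa_modules (MP_65efe8_pr): numbers of the levels, continuity.
-/

set_option autoImplicit false

open MeasureTheory ProbabilityTheory Filter Topology
open Pool.Agent.H98.CE
open Pool.Agent.H98.EX
open Pool.Agent.H54.CEL (nuc_cv nuc_cv_nonneg)

namespace Pool.Agent.H49.EX

/-- NUCX -/
theorem pf_NUCX (hCVM : Pool.Agent.H98.CE.T_CVM) : T_NUCX := by
  intro c0 η J ms l
  induction l with
  | zero =>
    intro j
    constructor
    · simp only [tlx, t0x]
      split_ifs
      · exact continuous_id.mul continuous_const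
      · exact continuous_const
    · intro _ e he
      simp only [tlx, t0x]
      split_ifs
      · positivity
      · exact le_rfl
  | succ l ih =>
    intro j
    constructor
    · simp only [tlx, nx]
      refine continuous_id.mul (continuous_finsetSum _ fun m _ => ?_)
      refine Continuous.mul ?_ (nuc_cv _ _ (fun j => (ih j).1) _ _)
      exact (continuous_id.mul continuous_const).pow m
    · intro hη e he
      simp only [tlx, nx]
      refine mul_nonneg he (Finset.sum_nonneg fun m _ => ?_)
      exact mul_nonneg (pow_nonneg (mul_nonneg he hη) m)
        (nuc_cv_nonneg _ _ (fun j => (ih j).2 hη e he) _ _)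

end Pool.Agent.H49.EX
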