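import Pool.Agent.H98.EX.LTargets

/-!
Row OBX of exa_modules (MP_65efe8_pr): the boxes of the first level.
-/

set_option autoImplicit false

open MeasureTheory ProbabilityTheory Filter Topology
open scoped ENNReal
open Pool.Agent.H95 Pool.Agent.H95.Cop
open Pool.Agent.H55.CG (VV Mo)
open Pool.Agent.H98.CE (pc WB HK OBJ Ob nx Fl)
open Pool.Agent.H98.SLN (RG TS MM YY sd)
open Pool.Agent.H98.EX

namespace Pool.Agent.H49.EX

/-- the conditions on the moments for a smaller range -/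
lemma obx_eg {ν : Measure ℝ} {k : ℕ} {ϑ ε τ U V : ℝ} (h : EG ν k ϑ ε τ U) (hV : V ≤ U) :
    EG ν k ϑ ε τ V :=
  ⟨h.prob, h.exp, fun u hu => h.lo u (hu.trans hV), fun u hu => h.up u (hu.trans hV)⟩

/-- the moments of an increment -/
lemma obx_mo (hYSM : T_YSM) {ν : Measure ℝ} {k : ℕ} {ϑ ε τ U τ1 : ℝ} {Q : ℕ}
    (h : EG ν k ϑ ε τ U) (hk : 1 ≤ k) (hϑ : 0 < ϑ) (hε : 0 ≤ ε) (h1 : (1 : ℝ) ≤ U)
    (hQ : (Q : ℝ) ≤ U) (h2 : ϑ * Q * ε + τ ≤ τ1) (h3 : ϑ * ε + τ ≤ τ1) :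
    ∀ q : ℝ, -1 ≤ q → q ≤ Q → Real.exp (ϑ * (q ^ 2 / 2 - q / 4) - τ1) ≤ Mo (rl ν k ϑ) q ∧
      Mo (rl ν k ϑ) q ≤ Real.exp (ϑ * (q ^ 2 / 2 - q / 4) + τ1) := by
  intro q hq1 hq2
  have := h.prob
  obtain ⟨-, -, -, hMo, -⟩ := hYSM ν h.exp k ϑ hk
  rw [hMo q]
  have hqU : |q / 2| ≤ U := by
    rw [abs_le]
    constructor <;> linarith
  have e1 := h.lo (q / 2) hqU
  have e2 := h.up (q / 2) hqU
  have hp : 0 < Real.exp (q * ϑ / 2) := Real.exp_pos _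
  have hϑε : 0 ≤ ϑ * ε := mul_nonneg hϑ.le hε
  constructor
  · refine le_trans ?_ (mul_le_mul_of_nonneg_left e1 hp.le)
    rw [← Real.exp_add]
    apply Real.exp_le_exp.2
    have h5 : ϑ * ε * q ≤ ϑ * ε * Q := mul_le_mul_of_nonneg_left hq2 hϑε
    nlinarith
  · refine le_trans (mul_le_mul_of_nonneg_left e2 hp.le) ?_
    rw [← Real.exp_add]
    apply Real.exp_le_exp.2
    have h5 : ϑ * ε * (-1) ≤ ϑ * ε * q := mul_le_mul_of_nonneg_left hq1 hϑε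
    nlinarith

/-- OBX -/
theorem pf_OBX (hTLQ : Pool.Agent.H98.SLN.T_TLQ) (hYSM : T_YSM) (hCHL : T_CHL) (hNLX : T_NLX)
    (hWXD : T_WXD) (hDNX : T_DNX) (hMUX : T_MUX) : T_OBX := by
  intro kl c0 e J hkl hc0 he0 he1
  obtain ⟨ζ, η, ϑ, r, τ1, R, Q, hζ0, hζ1, hη0, hη1, hϑ0, hϑ1, hr0, hr1, her, hR2, hτ1, hmain,
    hrho⟩ := hCHL e he0 he1
  obtain ⟨m, x0, hx0, hnl⟩ := hNLX kl c0 e ζ η ϑ r τ1 R Q J hkl hc0 he0 hζ0 hζ1 hη0 hη1 hϑ0 hϑ1
    hr0 hr1 hτ1 hmain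
  refine ⟨ϑ, r, max 3 (Q : ℝ), hϑ0, hϑ1, hr0, hr1, her, le_max_left _ _, m, ?_⟩
  filter_upwards [Ioo_mem_nhdsGT hx0] with x hx
  intro K ν α cK τ k q hLX
  have hxp : 0 < x := hx.1
  have hprob : IsProbabilityMeasure ν := hLX.lm.eg.prob
  have hk : 1 ≤ k := (hTLQ K α cK (x ^ 4) k q hLX.rx.rg).1
  obtain ⟨b1, b2, b3, b4, b5, b6, b7, b8, b9, b10, b11, b12, b13, b14, b15, b16, b17, b18⟩ :=
    hnl x hxp hx.2 α τ hLX.rx.rg.α0 hLX.rx.rg.α1 hLX.τ0 hLX.τ1 _ _ rfl rfl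
  set β : ℝ := bX c0 kl x with hβ
  set n : ℕ := ⌈β ^ 2⌉₊ with hn
  set D : ℕ := ⌈4 * β * ((J : ℝ) + 1) / ϑ⌉₊ with hD
  have hε0 : 0 ≤ kl * x := (mul_pos hkl hxp).le
  have hDC : DC K ν α cK (x ^ 4) r ϑ (kl * x) τ β ζ η k q n R D J :=
    { rx := hLX.rx
      lm := ⟨obx_eg hLX.lm.eg (le_max_left _ _), hLX.lm.m1, hLX.lm.m2, hLX.lm.m4⟩
      kr := hLX.kr
      r1 := hr1
      ϑ0 := hϑ0
      ϑ1 := hϑ1
      ε0 := hε0
      ε1 := b1
      τ0 := hLX.τ0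
      τ1 := b2
      β0 := b3
      ζ0 := hζ0
      ζ1 := hζ1
      βζ := b4
      η0 := hη0
      η1 := hη1
      R2 := hR2
      Rβ := b5
      D1 := Nat.le_ceil _
      D2 := b6
      D3 := b7
      Dn := b8 }
  obtain ⟨c1, c2, c3, c4, c5⟩ := hWXD K α cK (x ^ 4) r ϑ β k q hLX.rx hLX.kr hr1 hϑ0 hϑ1 b3 n D J b6
  obtain ⟨d1, d2, d3, d4⟩ := hMUX K ν α cK (x ^ 4) r ϑ (kl * x) τ β ζ η k q n R D J hDC
  -- the ends of the stretches
  have hmo := obx_mo hYSM hLX.lm.eg hk hϑ0 hε0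
    (le_trans (by norm_num : (1 : ℝ) ≤ 3) (le_max_left _ _)) (le_max_right _ _) b14 b15
  obtain ⟨-, hpr, hexp, -, -⟩ := hYSM ν hLX.lm.eg.exp k ϑ hk
  obtain ⟨g1, g2⟩ := hrho (rl ν k ϑ) hexp hmo (1 / (1 + α)) b16
  refine ⟨n, b10, ?_, wX K k q r ϑ β n D J, lX K k q r ϑ β n D J, ?_⟩
  · refine b11.trans (le_of_eq ?_)
    congr 1
    push_cast
    ring
  · refine ⟨c1, c2, c3, c4, fun y => (c5 y).1, fun y => (c5 y).2.1, fun y => (c5 y).2.2.1,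
      fun y => (c5 y).2.2.2.1, fun y => (c5 y).2.2.2.2, d1, d2, ?_, ?_, d4.trans b13⟩
    · intro j _
      by_cases hj : 3 ≤ j ∧ j ≤ J
      · have hJ0 : (0 : ℝ) < (J : ℝ) + 1 := by positivity
        have hs0 : 0 < ζ / (16 * ((J : ℝ) + 1)) := by positivity
        have hs1 : ζ / (16 * ((J : ℝ) + 1)) ≤ 1 / 2 := by
          rw [div_le_div_iff₀ (by positivity) (by norm_num)]
          have : (0 : ℝ) ≤ J := Nat.cast_nonneg _
          nlinarith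
        have hX : (1 - η) ^ 2 * (ϑ / (8 * Real.pi)) - Real.sqrt (Pb ϑ β ζ η (kl * x) (x ^ 4) τ
            (ζ / (16 * ((J : ℝ) + 1))) n R D) * ϑ ≤
            QQ (rl ν k ϑ) (1 / (1 + α)) (1 - 1 / (1 + α)) R R ^ 2 -
              Real.sqrt (Pb ϑ β ζ η (kl * x) (x ^ 4) τ (ζ / (16 * ((J : ℝ) + 1))) n R D) *
              QQ (rl ν k ϑ) (1 / (1 + α)) (2 - 2 * (1 / (1 + α))) R R := by
          have e1 : (1 - η) ^ 2 * (ϑ / (8 * Real.pi)) ≤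
              QQ (rl ν k ϑ) (1 / (1 + α)) (1 - 1 / (1 + α)) R R ^ 2 := by
            have e2 : 0 ≤ (1 - η) * Real.sqrt (ϑ / (8 * Real.pi)) :=
              mul_nonneg (by linarith) (Real.sqrt_nonneg _)
            have e3 := pow_le_pow_left₀ e2 g1 2
            rwa [mul_pow, Real.sq_sqrt (by positivity)] at e3
          have e4 := mul_le_mul_of_nonneg_left g2 (Real.sqrt_nonneg
            (Pb ϑ β ζ η (kl * x) (x ^ 4) τ (ζ / (16 * ((J : ℝ) + 1))) n R D))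
          linarith
        have hdn := hDNX K ν α cK (x ^ 4) r ϑ (kl * x) τ β ζ η k q n R D J hDC
          (ζ / (16 * ((J : ℝ) + 1))) hs0 hs1 b9 _ b17 hX j hj.1 hj.2
        have hlast := b18 j hj.1 hj.2
        have et : t0x c0 e J j = e * Real.exp (-(c0 * ((j : ℝ) + 1))) := by
          unfold t0x
          rw [if_pos hj]
        rw [et]
        exact hlast.trans hdn
      · have et : t0x c0 e J j = 0 := by
          unfold t0x
          rw [if_neg hj]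
        rw [et, mul_zero, mul_zero]
        refine integral_nonneg (fun y => ?_)
        show (0 : ℝ) ≤ if lX K k q r ϑ β n D J y = j then
          wX K k q r ϑ β n D J y ^ (1 / (1 + α)) else 0
        split_ifs
        · exact Real.rpow_nonneg (c5 y).1 _
        · exact le_rfl
    · refine d3.trans ?_
      exact mul_le_mul_of_nonneg_left b12 (Nat.cast_nonneg _)

end Pool.Agent.H49.EX
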